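import Pool.Agent.H90.UL.Targets

/-!
# Module RES of the board ul_modules
-/

set_option autoImplicit false

namespace Pool.Agent.H90.UL

open Pool.Agent.H27.Pattern Finset

theorem pf_res : T_RES := by
  intro p n M hp hMp hn
  classical
  have hpos : 0 < p := hp.pos
  have hcop : Nat.Coprime p n := (Nat.Prime.coprime_iff_not_dvd hp).2 hn
  set f : ℕ → ℕ := fun t => (p - (t * n) % p) % p with hf
  have hfd : ∀ t, p ∣ f t + t * n := by
    intro t
    have h1 : (t * n) % p < p := Nat.mod_lt _ hpos
    have h2 : (p - (t * n) % p) % p + t * n ≡ (p - (t * n) % p) + (t * n) % p [MOD p] :=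
      Nat.ModEq.add (Nat.mod_modEq _ _) (Nat.mod_modEq _ _).symm
    have h3 : (p - (t * n) % p) + (t * n) % p = p := by omega
    rw [h3] at h2
    have h4 : p ≡ 0 [MOD p] := by simp [Nat.ModEq]
    exact (Nat.modEq_zero_iff_dvd).1 (h2.trans h4)
  have hinj : Set.InjOn f (↑(range M) : Set ℕ) := by
    intro t ht t' ht' h
    have ht1 : t < M := by simpa using ht
    have ht1' : t' < M := by simpa using ht'
    have e1 : f t + t * n ≡ f t + t' * n [MOD p] := by
      have a1 : f t + t * n ≡ 0 [MOD p] := (Nat.modEq_zero_iff_dvd).2 (hfd t)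
      have a2 : f t + t' * n ≡ 0 [MOD p] := by
        have : f t = f t' := h
        rw [this]
        exact (Nat.modEq_zero_iff_dvd).2 (hfd t')
      exact a1.trans a2.symm
    have e2 : t * n ≡ t' * n [MOD p] := Nat.ModEq.add_left_cancel' _ e1
    have e3 : t ≡ t' [MOD p] := Nat.ModEq.cancel_right_of_coprime hcop e2
    have e4 : t % p = t' % p := e3
    rwa [Nat.mod_eq_of_lt (by omega), Nat.mod_eq_of_lt (by omega)] at e4
  have hcard : ((range M).image f).card = M := by
    rw [card_image_of_injOn hinj, card_range]
  have hsub : (range M).image f ⊆ (range p).filter (fun x => ¬ ∀ t < M, ¬ p ∣ x + t * n) := by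
    intro x hx
    obtain ⟨t, ht, rfl⟩ := mem_image.1 hx
    rw [mem_filter]
    refine ⟨?_, ?_⟩
    · rw [mem_range]
      exact Nat.mod_lt _ hpos
    · intro h
      exact h t (by simpa using ht) (hfd t)
  have h1 := card_le_card hsub
  have h2 := card_filter_add_card_filter_not (s := range p) (fun x => ∀ t < M, ¬ p ∣ x + t * n)
  rw [card_range] at h2
  rw [hcard] at h1
  have h3 : ((range p).filter fun x => ∀ t < M, ¬ p ∣ x + t * n).card + M ≤ p := by
    calc _ ≤ ((range p).filter fun x => ∀ t < M, ¬ p ∣ x + t * n).card +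
        ((range p).filter (fun x => ¬ ∀ t < M, ¬ p ∣ x + t * n)).card := by
          gcongr
      _ = p := h2
  calc _ ≤ ((range p).filter fun x => ∀ t < M, ¬ p ∣ x + t * n).card := le_of_eq (by
        refine card_bij (fun x _ => x) ?_ ?_ ?_
        · intro x hx
          simpa only [mem_filter] using hx
        · intro x _ y _ h
          exact h
        · intro x hx
          exact ⟨x, by simpa only [mem_filter] using hx, rfl⟩)
    _ ≤ p - M := by omega

end Pool.Agent.H90.UL
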