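import Pool.Agent.H90.UL.Targets

/-!
# Module SIV of the board ul_modules
-/

set_option autoImplicit false

namespace Pool.Agent.H90.UL

open Pool.Agent.H27.Pattern Finset

namespace SIVaux

open Classical in
/-- the number of the classes which survive the sieve -/
lemma count_ok (hC : T_CNT) (hR : T_RES) (n M P : ℕ) (hP : 0 < P)
    (hPn : ∀ p : ℕ, p.Prime → p ∣ P → p ∣ n) (F : Finset ℕ)
    (hF : ∀ p ∈ F, p.Prime ∧ M < p ∧ ¬ p ∣ n) :
    ((range (P * ∏ p ∈ F, p)).filter
      (fun x => Nat.Coprime x P ∧ ∀ p ∈ F, ∀ t < M, ¬ p ∣ x + t * n)).card ≤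
      P.totient * ∏ p ∈ F, (p - M) := by
  classical
  induction F using Finset.induction with
  | empty =>
    simp only [prod_empty, mul_one]
    rw [Nat.totient_eq_card_coprime]
    apply card_le_card
    intro x hx
    rw [mem_filter] at hx ⊢
    exact ⟨hx.1, hx.2.1.symm⟩
  | insert p F hpF ih =>
    have hF' : ∀ r ∈ F, r.Prime ∧ M < r ∧ ¬ r ∣ n := fun r hr => hF r (mem_insert_of_mem hr)
    have hp := hF p (mem_insert_self _ _)
    have ih' := ih hF'
    have hApos : 0 < P * ∏ r ∈ F, r :=
      Nat.mul_pos hP (prod_pos fun r hr => (hF' r hr).1.pos)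
    have hcop : Nat.Coprime (P * ∏ r ∈ F, r) p := by
      refine Nat.Coprime.symm ?_
      rw [Nat.Prime.coprime_iff_not_dvd hp.1]
      intro hdvd
      rcases (Nat.Prime.dvd_mul hp.1).1 hdvd with h | h
      · exact hp.2.2 (hPn p hp.1 h)
      · obtain ⟨r, hr, hpr⟩ := (Prime.dvd_finset_prod_iff hp.1.prime _).1 h
        have : p = r := (Nat.prime_dvd_prime_iff_eq hp.1 (hF' r hr).1).1 hpr
        exact hpF (this ▸ hr)
    have hf : ∀ x, (Nat.Coprime (x + P * ∏ r ∈ F, r) P ∧
        ∀ r ∈ F, ∀ t < M, ¬ r ∣ (x + P * ∏ r ∈ F, r) + t * n) ↔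
        (Nat.Coprime x P ∧ ∀ r ∈ F, ∀ t < M, ¬ r ∣ x + t * n) := by
      intro x
      have h1 : Nat.Coprime (x + P * ∏ r ∈ F, r) P ↔ Nat.Coprime x P := by
        rw [Nat.coprime_add_mul_left_left]
      rw [h1]
      refine and_congr_right fun _ => ?_
      refine forall_congr' fun r => forall_congr' fun hr => forall_congr' fun t =>
        forall_congr' fun _ => not_congr ?_
      have hd : r ∣ P * ∏ r ∈ F, r := Dvd.dvd.mul_left (dvd_prod_of_mem _ hr) _
      have e : x + P * ∏ r ∈ F, r + t * n = (x + t * n) + P * ∏ r ∈ F, r := by ring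
      rw [e]
      exact (Nat.dvd_add_iff_left hd).symm
    have hg : ∀ x, (∀ t < M, ¬ p ∣ (x + p) + t * n) ↔ (∀ t < M, ¬ p ∣ x + t * n) := by
      intro x
      refine forall_congr' fun t => forall_congr' fun _ => not_congr ?_
      have e : x + p + t * n = (x + t * n) + p := by ring
      rw [e]
      exact (Nat.dvd_add_iff_left (dvd_refl p)).symm
    have h1 := hC (P * ∏ r ∈ F, r) p
      (fun x => Nat.Coprime x P ∧ ∀ r ∈ F, ∀ t < M, ¬ r ∣ x + t * n)
      (fun x => ∀ t < M, ¬ p ∣ x + t * n) hApos hp.1.pos hcop hf hg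
    have h2 := hR p n M hp.1 hp.2.1 hp.2.2
    have e1 : P * ∏ r ∈ insert p F, r = P * (∏ r ∈ F, r) * p := by
      rw [prod_insert hpF]; ring
    have e2 : ∏ r ∈ insert p F, (r - M) = (∏ r ∈ F, (r - M)) * (p - M) := by
      rw [prod_insert hpF]; ring
    rw [e1, e2]
    have h3 : ((range (P * (∏ r ∈ F, r) * p)).filter
        (fun x => Nat.Coprime x P ∧ ∀ r ∈ insert p F, ∀ t < M, ¬ r ∣ x + t * n)).card ≤
        ((range (P * (∏ r ∈ F, r) * p)).filter
          (fun x => (Nat.Coprime x P ∧ ∀ r ∈ F, ∀ t < M, ¬ r ∣ x + t * n) ∧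
            ∀ t < M, ¬ p ∣ x + t * n)).card := by
      apply card_le_card
      intro x hx
      rw [mem_filter] at hx ⊢
      exact ⟨hx.1, ⟨hx.2.1, fun r hr => hx.2.2 r (mem_insert_of_mem hr)⟩,
        hx.2.2 p (mem_insert_self _ _)⟩
    refine h3.trans ?_
    calc _ = ((range (P * ∏ r ∈ F, r)).filter
          (fun x => Nat.Coprime x P ∧ ∀ r ∈ F, ∀ t < M, ¬ r ∣ x + t * n)).card *
        ((range p).filter (fun x => ∀ t < M, ¬ p ∣ x + t * n)).card := h1
      _ ≤ (P.totient * ∏ r ∈ F, (r - M)) * (p - M) := by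
          refine Nat.mul_le_mul ih' ?_
          refine le_trans (card_le_card ?_) h2
          intro x hx
          simpa only [mem_filter] using hx
      _ = _ := by ring

/-- counting a periodic condition in `u` periods -/
lemma count_per (W a u : ℕ) (ok : ℕ → Prop) [DecidablePred ok]
    (hper : ∀ x, ok (x + W) ↔ ok x) :
    ((Ico a (a + u * W)).filter ok).card = u * ((range W).filter ok).card := by
  have hp : Function.Periodic ok W := fun x => propext (hper x)
  induction u with
  | zero => simp
  | succ u ih =>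
    have e : Ico a (a + (u + 1) * W) = Ico a (a + u * W) ∪ Ico (a + u * W) (a + u * W + W) := by
      rw [Ico_union_Ico_eq_Ico (by omega) (by omega)]
      congr 1
      ring
    rw [e, filter_union, card_union_of_disjoint, ih, Nat.filter_Ico_card_eq_of_periodic _ _ _ hp,
      Nat.count_eq_card_filter_range]
    · ring
    · refine disjoint_filter_filter ?_
      exact Ico_disjoint_Ico_consecutive _ _ _

end SIVaux

open SIVaux

theorem pf_siv (hC : T_CNT) (hR : T_RES) : T_SIV := by
  intro a n q M R hpre hM P F hP hPn hF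
  classical
  set W : ℕ := P * ∏ p ∈ F, p with hW
  set ok : ℕ → Prop := fun x => Nat.Coprime x P ∧ ∀ p ∈ F, ∀ t < M, ¬ p ∣ x + t * n with hok
  have hWpos : 0 < W := Nat.mul_pos hP (prod_pos fun r hr => (hF r hr).1.pos)
  have h1 : ((range W).filter ok).card ≤ P.totient * ∏ p ∈ F, (p - M) :=
    (card_le_card (fun x hx => by simpa only [mem_filter] using hx)).trans
      (count_ok hC hR n M P hP hPn F hF)
  have hper : ∀ x, ok (x + W) ↔ ok x := by
    intro x
    have h1 : Nat.Coprime (x + W) P ↔ Nat.Coprime x P := by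
      rw [hW, Nat.coprime_add_mul_left_left]
    show (Nat.Coprime (x + W) P ∧ _) ↔ (Nat.Coprime x P ∧ _)
    rw [h1]
    refine and_congr_right fun _ => ?_
    refine forall_congr' fun r => forall_congr' fun hr => forall_congr' fun t =>
      forall_congr' fun _ => not_congr ?_
    have hd : r ∣ W := Dvd.dvd.mul_left (dvd_prod_of_mem _ hr) _
    have e : x + W + t * n = (x + t * n) + W := by ring
    rw [e]
    exact (Nat.dvd_add_iff_left hd).symm
  set E : Finset ℕ := R.filter (fun x => ∃ p ∈ F, ∃ t < M, p ∣ x + t * n) with hE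
  -- the exceptional elements
  have hEF : ∀ x ∈ E, ∃ p ∈ F, ∃ t < M, x + t * n = p := by
    intro x hx
    rw [hE, mem_filter] at hx
    obtain ⟨hxR, p, hpF, t, ht, hdvd⟩ := hx
    have hpr := hpre.chain x hxR t ht
    exact ⟨p, hpF, t, ht, ((Nat.prime_dvd_prime_iff_eq (hF p hpF).1 hpr).1 hdvd).symm⟩
  have hEcard : E.card ≤ F.card := by
    choose! g hgF t ht hg using hEF
    refine card_le_card_of_injOn g (fun x hx => hgF x hx) ?_
    intro x hx y hy hxy
    have hx' : x ∈ E := hx
    have hy' : y ∈ E := hy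
    have ex := hg x hx'
    have ey := hg y hy'
    have hxR := hpre.sub x (mem_filter.1 hx').1
    have hyR := hpre.sub y (mem_filter.1 hy').1
    have hxy' : g x = g y := hxy
    rw [← ex, ← ey] at hxy'
    rcases Nat.lt_trichotomy (t x) (t y) with h | h | h
    · have : (t x + 1) * n ≤ t y * n := Nat.mul_le_mul_right n h
      rw [Nat.add_mul, one_mul] at this
      omega
    · rw [h] at hxy'
      omega
    · have : (t y + 1) * n ≤ t x * n := Nat.mul_le_mul_right n h
      rw [Nat.add_mul, one_mul] at this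
      omega
  have hsub : R \ E ⊆ (Ico a (a + n)).filter ok := by
    intro x hx
    rw [mem_sdiff] at hx
    obtain ⟨hxR, hxE⟩ := hx
    have hxr := hpre.sub x hxR
    rw [mem_filter, mem_Ico]
    refine ⟨hxr, ?_, ?_⟩
    · have hxp : x.Prime := by
        have := hpre.chain x hxR 0 (by omega)
        simpa using this
      have hx1 : (x + 1 * n).Prime := hpre.chain x hxR 1 (by omega)
      rw [Nat.Prime.coprime_iff_not_dvd hxp]
      intro hdvd
      have hxn := hPn x hxp hdvd
      have h2 : x ∣ x + 1 * n := by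
        rw [one_mul]
        exact dvd_add (dvd_refl x) hxn
      have h3 := (Nat.prime_dvd_prime_iff_eq hxp hx1).1 h2
      have := hpre.pos
      omega
    · intro p hp t ht hdvd
      apply hxE
      rw [hE, mem_filter]
      exact ⟨hxR, p, hp, t, ht, hdvd⟩
  set u : ℕ := (n + W - 1) / W with hu
  have hnu : n ≤ u * W := by
    have h2 := Nat.lt_mul_div_succ (n + W - 1) hWpos
    rw [← hu] at h2
    have h3 : W * (u + 1) = u * W + W := by ring
    omega
  have hsub2 : (Ico a (a + n)).filter ok ⊆ (Ico a (a + u * W)).filter ok := by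
    apply filter_subset_filter
    apply Ico_subset_Ico_right
    omega
  have h4 : R.card ≤ E.card + (R \ E).card := by
    have := card_le_card_sdiff_add_card (s := R) (t := E)
    omega
  have h5 : (R \ E).card ≤ u * ((range W).filter ok).card := by
    rw [← count_per W a u ok hper]
    exact card_le_card (hsub.trans hsub2)
  calc R.card ≤ E.card + (R \ E).card := h4
    _ ≤ F.card + u * (P.totient * ∏ p ∈ F, (p - M)) := by
        refine Nat.add_le_add hEcard (h5.trans ?_)
        exact Nat.mul_le_mul_left _ h1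
    _ = _ := by ring

end Pool.Agent.H90.UL
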